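import Pool.Agent.H37.CTR.Stmts

/-! Board ctr, row SQG (helper14): an explicit bound for every finite group. -/

set_option autoImplicit false

namespace Pool.CND

open Finset

theorem sqg_pos (p e : ℕ) (hp : p.Prime) : 1 ≤ (Icc 1 e).lcm (fun m => p ^ m - 1) := by
  rw [Nat.one_le_iff_ne_zero]
  intro h
  rw [Finset.lcm_eq_zero_iff] at h
  obtain ⟨m, hm, h0⟩ := h
  rw [Finset.mem_Icc] at hm
  have h1 : 1 < p ^ m := Nat.one_lt_pow (by omega) hp.one_lt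
  omega

theorem sqg_le (p a d cW zW cP zP : ℕ) (hp : p.Prime) (hzW : 0 < zW)
    (hcP : 0 < cP) (h1 : p ^ (2 * d) * zW ∣ cW) (h2 : cW * zP ∣ cP * zW)
    (h3 : cP < p ^ (2 * a + 2) * zP) : d ≤ a := by
  have h4 : p ^ (2 * d) * zW * zP ∣ cP * zW := (Nat.mul_dvd_mul_right h1 zP).trans h2
  have h5 : p ^ (2 * d) * zP * zW ∣ cP * zW := by
    have e : p ^ (2 * d) * zP * zW = p ^ (2 * d) * zW * zP := by ring
    rw [e]
    exact h4
  have h6 : p ^ (2 * d) * zP ∣ cP := Nat.dvd_of_mul_dvd_mul_right hzW h5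
  have h7 : p ^ (2 * d) * zP ≤ cP := Nat.le_of_dvd hcP h6
  have h8 : p ^ (2 * d) * zP < p ^ (2 * a + 2) * zP := lt_of_le_of_lt h7 h3
  have h9 : p ^ (2 * d) < p ^ (2 * a + 2) := lt_of_mul_lt_mul_right h8 (Nat.zero_le _)
  have h10 : 2 * d < 2 * a + 2 := (Nat.pow_lt_pow_iff_right hp.one_lt).1 h9
  omega

theorem sqg_thm (h1 : S_SQ1) (h2 : S_SQ2) (h3 : S_SQP) (h4 : S_GDX) : S_SQG := by
  intro p a e k G _ _ _ _ P hp hk hP hE
  refine h4 p k G a ((Icc 1 e).lcm (fun m => p ^ m - 1)) hp hk (sqg_pos p e hp) ?_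
  rintro W ⟨n, hn⟩ _
  refine ⟨?_, ?_⟩
  · intro z hz hz1 hzp hzc
    obtain ⟨H, H₀, d, hzH, hc, hH0, hz0, hd, hnor, hcomm⟩ := h1 p n W ⟨z, hz⟩ hp hn
      (fun h => hz1 (congrArg Subtype.val h)) (Subtype.ext hzp)
      (Subgroup.mem_center_iff.2 fun w => Subtype.ext (hzc w.1 w.2))
    have hda : d ≤ a := by
      refine sqg_le p a d (Nat.card W) (Nat.card (Subgroup.center W)) (Nat.card P)
        (Nat.card (Subgroup.center P)) hp Nat.card_pos Nat.card_pos hd (h3 p n G P W hp hn) hP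
    have hcard : Nat.card (H.map W.subtype) = Nat.card H :=
      Nat.card_congr (H.equivMapOfInjective _ W.subtype_injective).symm.toEquiv
    refine ⟨H.map W.subtype, d, ?_, ⟨⟨z, hz⟩, hzH, rfl⟩, ?_, Or.inl ⟨?_, hda⟩⟩
    · rintro _ ⟨w, _, rfl⟩
      exact w.2
    · rw [hcard]
      exact hc
    · refine ⟨H₀.map W.subtype, Subgroup.map_mono hH0, ?_, ?_, Or.inl ?_⟩
      · rintro _ ⟨h, hh, rfl⟩ _ ⟨x, hx, rfl⟩
        exact ⟨h * x * h⁻¹, hnor h hh x hx, rfl⟩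
      · rintro ⟨w, hw, hwz⟩
        exact hz0 (by
          have : w = ⟨z, hz⟩ := Subtype.ext hwz
          rwa [this] at hw)
      · rintro _ ⟨x, hx, rfl⟩ _ ⟨h, hh, rfl⟩
        exact ⟨h * x * h⁻¹ * x⁻¹, hcomm x hx h hh, rfl⟩
  · intro g C hg _ _ hC hEA _ hgC hYS x hx
    obtain ⟨m, hm, hcm, hcom⟩ := h2 p G g C hp hC hEA hgC hYS
    have hme : m ≤ e := by
      have := hE C hEA
      rw [hcm] at this
      exact (Nat.pow_le_pow_iff_right hp.one_lt).1 this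
    obtain ⟨j, hj⟩ : p ^ m - 1 ∣ (Icc 1 e).lcm (fun m => p ^ m - 1) :=
      Finset.dvd_lcm (f := fun m : ℕ => p ^ m - 1) (Finset.mem_Icc.2 ⟨hm, hme⟩)
    rw [hj, pow_mul]
    exact (Commute.pow_left (hcom x hx) j)

end Pool.CND
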