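import Pool.Agent.H37.CTR.Stmts

/-! Board ctr, row SQP (helper14). -/

set_option autoImplicit false

namespace Pool.CND

open Finset

/-- `W ≤ P`, everything inside one group `P` -/
theorem sqpb_in (P : Type) [Group P] [Finite P] (W : Subgroup P) :
    Nat.card W * Nat.card (Subgroup.center P) ∣ Nat.card P * Nat.card (Subgroup.center W) := by
  let f : W × Subgroup.center P →* P :=
    { toFun := fun x => x.1.1 * x.2.1
      map_one' := by simp
      map_mul' := fun a b => by
        have h := Subgroup.mem_center_iff.1 a.2.2 b.1.1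
        change (a.1.1 * b.1.1) * (a.2.1 * b.2.1) = (a.1.1 * a.2.1) * (b.1.1 * b.2.1)
        calc (a.1.1 * b.1.1) * (a.2.1 * b.2.1) = a.1.1 * (b.1.1 * a.2.1) * b.2.1 := by group
          _ = a.1.1 * (a.2.1 * b.1.1) * b.2.1 := by rw [h]
          _ = (a.1.1 * a.2.1) * (b.1.1 * b.2.1) := by group }
  have h1 := f.ker.card_mul_index
  rw [Subgroup.index_ker, Nat.card_prod] at h1
  have h2 : Nat.card f.range ∣ Nat.card P := Subgroup.card_subgroup_dvd_card _
  have h3 : Nat.card f.ker ∣ Nat.card (Subgroup.center W) := by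
    have hmem : ∀ x : f.ker, x.1.1 ∈ Subgroup.center W := by
      intro x
      have hx : x.1.1.1 * x.1.2.1 = 1 := x.2
      have hx2 : x.1.1.1 = (x.1.2.1)⁻¹ := eq_inv_of_mul_eq_one_left hx
      have hc : x.1.1.1 ∈ Subgroup.center P := by
        rw [hx2]
        exact inv_mem x.1.2.2
      rw [Subgroup.mem_center_iff]
      intro w
      exact Subtype.ext (Subgroup.mem_center_iff.1 hc w.1)
    let g : f.ker →* Subgroup.center W :=
      { toFun := fun x => ⟨x.1.1, hmem x⟩
        map_one' := rfl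
        map_mul' := fun _ _ => rfl }
    refine Subgroup.card_dvd_of_injective g ?_
    intro x y hxy
    have h4 : x.1.1 = y.1.1 := congrArg Subtype.val hxy
    have hx : x.1.1.1 * x.1.2.1 = 1 := x.2
    have hy : y.1.1.1 * y.1.2.1 = 1 := y.2
    have h5 : x.1.2.1 = y.1.2.1 := by
      rw [eq_inv_of_mul_eq_one_right hx, eq_inv_of_mul_eq_one_right hy, h4]
    exact Subtype.ext (Prod.ext h4 (Subtype.ext h5))
  rw [← h1, mul_comm (Nat.card P)]
  exact Nat.mul_dvd_mul h3 h2

theorem sqp_thm : S_SQP := by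
  intro p n G _ _ P W hp hW
  have := Fact.mk hp
  obtain ⟨Q, hQ⟩ := (IsPGroup.of_card hW).exists_le_sylow
  have h1 := sqpb_in Q (W.subgroupOf Q)
  have e1 : Nat.card (W.subgroupOf Q) = Nat.card W :=
    Nat.card_congr (Subgroup.subgroupOfEquivOfLe hQ).toEquiv
  have e2 : Nat.card (Subgroup.center (W.subgroupOf Q)) = Nat.card (Subgroup.center W) :=
    Nat.card_congr (Subgroup.centerCongr (Subgroup.subgroupOfEquivOfLe hQ)).toEquiv
  have e3 : Nat.card (Subgroup.center Q) = Nat.card (Subgroup.center P) :=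
    Nat.card_congr (Subgroup.centerCongr (Sylow.equiv Q P)).toEquiv
  have e4 : Nat.card Q = Nat.card P := Nat.card_congr (Sylow.equiv Q P).toEquiv
  rw [e1, e2, e3, e4] at h1
  exact h1

end Pool.CND
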